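import Pool.Agent.N657.QL.All

/-!
# The Lee-Huang-Yang law of the condensate depletion for lattice bosons at large filling

Ground states of lattice bosons in the regime of large filling (the quantum rotor or
Josephson-junction Hamiltonian, in which the hopping amplitude does not depend on the occupation
numbers) on the torus of even side in dimension at least two. In the thermodynamic limit at the
on-site interaction `U` (in units of the hopping) the depletion of the condensate is
`(c + o(1)) √U` as `U → 0`, where `c` is the constant of Bogoliubov's theory, for every number of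
particles and every background.
-/

open MeasureTheory

namespace Pool.Agent.Results.MP_4952d6_mp.LatticeLeeHuangYang

section

variable {V : Type} [Fintype V] [DecidableEq V]

/-- `ψ` is a normalised wave function of finite energy with `N` particles on the finite lattice `V`.
A configuration `n : V → ℤ` gives the number of particles at each site, counted from a large
uniform filling. -/
structure IsState (N : ℤ) (ψ : (V → ℤ) → ℂ) : Prop where
  particles : ∀ n, ψ n ≠ 0 → ∑ x, n x = N
  normalised : HasSum (fun n => ‖ψ n‖ ^ 2) 1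
  finite_energy : Summable fun n : V → ℤ => (∑ x, (n x : ℝ) ^ 2) * ‖ψ n‖ ^ 2

/-- The one-particle correlation `⟨ψ, a_x^* a_y ψ⟩`, where the operator `a_x^* a_y` moves a particle
from `y` to `x` (amplitude one, `a_x^* a_y = e^{i (θ_x - θ_y)}`). -/
noncomputable def correlation (x y : V) (ψ : (V → ℤ) → ℂ) : ℂ :=
  ∑' n : V → ℤ, (starRingEnd ℂ) (ψ (n + Pi.single x 1 - Pi.single y 1)) * ψ n

/-- The expectation in `ψ` of the Hamiltonian
`∑_{x,y} K_{xy} (n_x - ν_x) (n_y - ν_y) - ∑_{x,y} w_{xy} (a_x^* a_y + a_y^* a_x) / 2`. -/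
noncomputable def energy (K : Matrix V V ℝ) (w : V → V → ℝ) (ν : V → ℝ) (ψ : (V → ℤ) → ℂ) : ℝ :=
  (∑' n : V → ℤ, (∑ x, ∑ y, K x y * (((n x : ℝ) - ν x) * ((n y : ℝ) - ν y))) * ‖ψ n‖ ^ 2)
    - ∑ x, ∑ y, w x y * (correlation x y ψ).re

/-- `ψ` is a ground state of the system with `N` particles. -/
def IsGroundState (K : Matrix V V ℝ) (w : V → V → ℝ) (ν : V → ℝ) (N : ℤ)
    (ψ : (V → ℤ) → ℂ) : Prop :=
  IsState N ψ ∧ ∀ φ, IsState N φ → energy K w ν ψ ≤ energy K w ν φ

/-- The condensate fraction: the expectation of the occupation of the constant mode,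
`|V|⁻¹ ∑_{x,y} ⟨a_x^* a_y⟩`, divided by the number of sites (`⟨a_x^* a_x⟩ = 1`). -/
noncomputable def condensate (ψ : (V → ℤ) → ℂ) : ℝ :=
  (∑ x, ∑ y, (correlation x y ψ).re) / (Fintype.card V : ℝ) ^ 2

theorem isState_iff (N : ℤ) (ψ : (V → ℤ) → ℂ) :
    IsState N ψ ↔ Pool.Agent.N657.QR.IsState N ψ :=
  ⟨fun h => ⟨h.1, h.2, h.3⟩, fun h => ⟨h.1, h.2, h.3⟩⟩

theorem isGroundState_iff (K : Matrix V V ℝ) (w : V → V → ℝ) (ν : V → ℝ) (N : ℤ)
    (ψ : (V → ℤ) → ℂ) :
    IsGroundState K w ν N ψ ↔ Pool.Agent.N657.QR.IsGroundState K w ν N ψ := by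
  unfold IsGroundState Pool.Agent.N657.QR.IsGroundState
  simp only [isState_iff]
  exact Iff.rfl

end

/-- Hopping of strength one between nearest neighbours of the torus `(ℤ/L)^d`: the number of the
coordinate directions `i` with `y = x + e_i`. -/
def hopping {d L : ℕ} (x y : Fin d → ZMod L) : ℝ :=
  ∑ i : Fin d, if y = x + Pi.single i 1 then 1 else 0

/-- The constant of Bogoliubov's theory,
`(1 / √2) ∫_{[0,1]^d} (∑_i (2 - 2 cos (2 π k_i)))^{-1/2} dk`. -/
noncomputable def bogoliubovConstant (d : ℕ) : ℝ :=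
  (∫ k in Set.Icc (0 : Fin d → ℝ) 1,
    1 / Real.sqrt (∑ i : Fin d, (2 - 2 * Real.cos (2 * Real.pi * k i)))) / Real.sqrt 2

/-- **Lee-Huang-Yang law.** Let `d ≥ 2` and `ε > 0`. If `U > 0` is small enough and the even side
`L` of the torus is large enough, then for every background `ν` and every number `N` of particles,
the lattice bosons with on-site interaction `U ∑ (n_x - ν_x)²` and nearest neighbour hopping of
strength one have a ground state, unique up to a phase, and the fraction of the particles outside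
the condensate is `c √U` up to an error of at most `ε √U`, where `c` is Bogoliubov's constant. The
upper bound `(c + ε) √U` holds for every positive definite interaction `K ≤ U` and every hopping
`w ≥ 0` which is at least one between nearest neighbours. -/
theorem result (d : ℕ) (hd : 2 ≤ d) (ε : ℝ) (hε : 0 < ε) :
    ∃ U₀ : ℝ, 0 < U₀ ∧ ∀ U : ℝ, 0 < U → U ≤ U₀ → ∃ L₀ : ℕ, ∀ (L : ℕ) [NeZero L], L₀ ≤ L →
      Even L →
      (∀ (ν : (Fin d → ZMod L) → ℝ) (N : ℤ),
        (∃ ψ, IsGroundState (U • (1 : Matrix (Fin d → ZMod L) (Fin d → ZMod L) ℝ)) hopping ν N ψ) ∧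
        (∀ ψ φ, IsGroundState (U • (1 : Matrix _ _ ℝ)) hopping ν N ψ →
          IsGroundState (U • (1 : Matrix _ _ ℝ)) hopping ν N φ →
          ∃ c : ℂ, ‖c‖ = 1 ∧ ∀ n, φ n = c * ψ n) ∧
        ∀ ψ, IsGroundState (U • (1 : Matrix _ _ ℝ)) hopping ν N ψ →
          |(1 - condensate ψ) - bogoliubovConstant d * Real.sqrt U| ≤ ε * Real.sqrt U) ∧
      ∀ (K : Matrix (Fin d → ZMod L) (Fin d → ZMod L) ℝ) (ν : (Fin d → ZMod L) → ℝ)
        (w : (Fin d → ZMod L) → (Fin d → ZMod L) → ℝ),
        K.PosDef → (U • (1 : Matrix (Fin d → ZMod L) (Fin d → ZMod L) ℝ) - K).PosSemidef →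
        (∀ x y, 0 ≤ w x y) → (∀ x (i : Fin d), 1 ≤ w x (x + Pi.single i 1)) → ∀ N : ℤ,
          (∃ ψ, IsGroundState K w ν N ψ) ∧
          ∀ ψ, IsGroundState K w ν N ψ →
            1 - condensate ψ ≤ (bogoliubovConstant d + ε) * Real.sqrt U := by
  simp only [isGroundState_iff]
  exact Pool.Agent.N657.QL.main_all Pool.Agent.N657.QR.ex Pool.Agent.N657.QR.cmp
    Pool.Agent.N657.QR.cpx Pool.Agent.N657.QR.con Pool.Agent.N657.QL.env Pool.Agent.N657.QL.up
    Pool.Agent.N657.QL.lall Pool.Agent.N657.QL.rie d hd ε hε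

end Pool.Agent.Results.MP_4952d6_mp.LatticeLeeHuangYang
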