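import Pool.Agent.N260.NMF.Unif

/-!
# The phase diagram of hard-core bosons with slowly decaying hopping at positive temperature

Hard-core bosons on the torus `(ℤ / 2^J)^d`, `d ≥ 1`, with the Hamiltonian

`H = - ∑_{x ≠ y} K_J (y - x) b_x† b_y + (1 / 2) ∑_{x ≠ y} W_J (y - x) n_x n_y - h ∑_x n_x`,

where `K_J` and `W_J` are the periodisations of `K = T σ + R` and `W`.  Here `T σ` is a fixed
summable hopping kernel of total mass `1`, comparable to `|z|^(-(d + σ))`, `σ` is small, and `R ≥ 0`,
`W ≥ 0` are arbitrary short-range kernels with a small first moment (they need not be reflection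
positive).  In the thermodynamic limit `J → ∞` the density of the condensate in the grand canonical
Gibbs state of density `ρ` at the inverse temperature `β` is uniformly close to
`max (0, (m² - (1 - 2 ρ)²) / 4)`, where `m ≥ 0` is the largest solution of `m = tanh (β m / 2)`: the
error is at most `ε` for all densities `ρ ∈ (0, 1)` and all temperatures in a given compact interval
of `(0, ∞)`, on both sides of the transition line `m = |1 - 2 ρ|` and on the line itself.  The
equation of state (the density as a function of `β` and `h`) is close to the one of the mean-field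
model in the same uniform sense, for all real `h`.  In particular, at every density there is a
Bose-Einstein condensate below, and at most a condensate of density `ε` above, the temperature of the
mean-field transition.

The base is the theorem `Pool.Agent.TH268.TC.bec_absP` of the library, the proof of which compares
the Gibbs state with product states at all scales `2^j`, for one temperature and one chemical
potential at a time.  New here are the continuity of `m`, the compactness argument, the
monotonicity of the density, the bounds near the densities `0` and `1`, and the formula in terms of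
the density.
-/

set_option autoImplicit false

namespace Pool.Agent.Results.MP_4952d6_mp.ThermalPhaseDiagram

open Pool.Agent.H11R2.LatticeBose Pool.Agent.TH268.ThermalGas

/-- **The phase diagram of hard-core bosons with slowly decaying hopping at positive temperature.**
For every `β > 0` there is exactly one `m ≥ 0` with `m = tanh (β m / 2)` which is positive if
`β > 2`.  There is a family `T σ`, `σ > 0`, of even translation invariant hopping kernels on `ℤ^d`, of
total mass `1` and comparable to `|z|^(-(d + σ))`, such that for all `ε > 0` and `0 < b ≤ B` there is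
`δ > 0` with the following property.  Let `0 < σ ≤ δ`, let `R ≥ 0` be an even hopping kernel and
`W ≥ 0` a pair interaction with `∑ (R z + W z / 2) (1 + |z|₁) ≤ δ`.  On all large tori, at every
inverse temperature `β ∈ [b, B]`, every density in `(0, 1)` is the density of a Gibbs state for the
hopping kernel `T σ + R` and the interaction `W`, and every Gibbs state (with any real chemical
potential `h` and with the density `ρ`) has a condensate density within `ε` of
`max 0 ((m ^ 2 - (1 - 2 ρ) ^ 2) / 4)`, and `ρ` is within `ε` of `(1 + h) / 2` if `|h| < m` and within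
`ε` of `(1 + tanh (β h / 2)) / 2` if `|h| ≥ m`. -/
theorem result (d : ℕ) (hd : 1 ≤ d) :
    (∀ β : ℝ, 0 < β → ∃! m : ℝ, 0 ≤ m ∧ m = Real.tanh (β * m / 2) ∧ (0 < m ∨ β ≤ 2)) ∧
    ∃ T : ℝ → (Fin d → ℤ) → ℝ,
      (∀ σ : ℝ, 0 < σ → T σ 0 = 0 ∧ (∀ z, T σ (-z) = T σ z) ∧ HasSum (T σ) 1 ∧
        ∃ c C : ℝ, 0 < c ∧ ∀ z : Fin d → ℤ, z ≠ 0 →
          c * (supNorm z : ℝ) ^ (-(d + σ)) ≤ T σ z ∧ T σ z ≤ C * (supNorm z : ℝ) ^ (-(d + σ))) ∧
      ∀ ε b B : ℝ, 0 < ε → 0 < b → ∃ δ : ℝ, 0 < δ ∧ ∃ J₀ : ℕ,
        ∀ σ : ℝ, 0 < σ → σ ≤ δ → ∀ R W : (Fin d → ℤ) → ℝ, (∀ z, 0 ≤ R z) → (∀ z, 0 ≤ W z) →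
        R 0 = 0 → W 0 = 0 → (∀ z, R (-z) = R z) →
        ∀ L : ℝ, L ≤ δ → HasSum (fun z => (R z + W z / 2) * (1 + oneNorm z)) L →
        ∀ J ≥ J₀, ∀ β : ℝ, b ≤ β → β ≤ B →
          (∀ ρ : ℝ, 0 < ρ → ρ < 1 →
            ∃ h : ℝ, density β (hamiltonian (fun z => T σ z + R z) W h J) = ρ) ∧
          ∀ m : ℝ, 0 ≤ m → m = Real.tanh (β * m / 2) → (0 < m ∨ β ≤ 2) →
            ∀ h ρ : ℝ, density β (hamiltonian (fun z => T σ z + R z) W h J) = ρ →
              |condensate β (hamiltonian (fun z => T σ z + R z) W h J) -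
                  max 0 ((m ^ 2 - (1 - 2 * ρ) ^ 2) / 4)| ≤ ε ∧
              |ρ - (if |h| < m then (1 + h) / 2 else (1 + Real.tanh (β * h / 2)) / 2)| ≤ ε := by
  have huniq : ∀ β m : ℝ, 0 < β → 0 ≤ m → m = Real.tanh (β * m / 2) → (0 < m ∨ β ≤ 2) →
      m = Pool.Agent.N260.NMF.M β := fun β m hβ hm hm1 hm2 =>
    Pool.Agent.N260.NMF.M_unique hβ hm hm1 hm2
  refine ⟨fun β hβ => ⟨Pool.Agent.N260.NMF.M β, ⟨Pool.Agent.N260.NMF.M_nonneg β,
    Pool.Agent.N260.NMF.M_eq β, Pool.Agent.N260.NMF.M_pos_or⟩, fun m hm => huniq β m hβ hm.1 hm.2.1 hm.2.2⟩,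
    hopping d, fun σ hσ => ⟨by simp [hopping], hopping_neg σ, hopping_sum hd hσ,
    hopping_decay hd hσ⟩, fun ε b B hε hb => ?_⟩
  obtain ⟨δ, hδ, J₀, H⟩ := Pool.Agent.N260.NMF.unif d hd ε b B hε hb
  refine ⟨δ, hδ, J₀, fun σ hσ hσ1 R W hR hW hR0 hW0 hRe L hL hs J hJ β hbβ hβB => ⟨?_, ?_⟩⟩
  · intro ρ h0 h1
    have hK : ∀ z, (fun z => hopping d σ z + R z) (-z) = (fun z => hopping d σ z + R z) z := by
      intro z
      simp only [hopping_neg σ z, hRe z]
    exact Pool.Agent.TH268.TC.exists_potential hK β (hb.trans_le hbβ) ρ h0 h1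
  · intro m hm hm1 hm2 h ρ hρ
    have hmM := huniq β m (hb.trans_le hbβ) hm hm1 hm2
    obtain ⟨g1, g2⟩ := H σ hσ hσ1 R W hR hW hR0 hW0 hRe L hL hs J hJ β h hbβ hβB
    rw [hρ, ← hmM] at g1 g2
    exact ⟨g1, g2⟩

end Pool.Agent.Results.MP_4952d6_mp.ThermalPhaseDiagram
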